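import Pool.Agent.Helper58.SU.StQ

/-!
# Project SU, modules CNVS and INJ
-/

set_option autoImplicit false

namespace Pool.Agent.Helper36.SU

open Finset
open Pool.Agent.Helper48.BK (ex th Sx Apx)
open Pool.Agent.Helper23.GK
open Pool.Agent.Helper58.SU

theorem hCNVS (h : StCnv) : StCnvs := by
  intro f g y h' Z H D hD
  set f' : ℕ → ℝ := fun n => if y < n then f n else 0 with hf'
  set g' : ℕ → ℝ := fun n => if Z - (y + h') < n then g n else 0 with hg'
  have h1 : ∀ α, ‖Sx f' (y + h') α‖ ≤ D := by
    intro α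
    have : Sx f' (y + h') α = SI f y h' α := by
      unfold Sx SI
      rw [← Finset.sum_subset (s₁ := Ioc y (y + h'))]
      · apply Finset.sum_congr rfl
        intro n hn
        rw [Finset.mem_Ioc] at hn
        simp only [hf', if_pos hn.1]
      · intro n hn
        rw [Finset.mem_Ioc] at hn ⊢
        omega
      · intro n hn hn'
        rw [Finset.mem_Ioc] at hn hn'
        have : ¬ y < n := by omega
        simp only [hf', if_neg this]
        simp
    rw [this]
    exact hD α
  have h2 := h f' g' (Z + H) (y + h') D h1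
  have h3 : ∑ n ∈ Ioc 0 (Z + H), g' n ^ 2 = ∑ n ∈ Ioc (Z - (y + h')) (Z + H), g n ^ 2 := by
    rw [← Finset.sum_subset (s₁ := Ioc (Z - (y + h')) (Z + H))]
    · apply Finset.sum_congr rfl
      intro n hn
      rw [Finset.mem_Ioc] at hn
      simp only [hg', if_pos hn.1]
    · intro n hn
      rw [Finset.mem_Ioc] at hn ⊢
      omega
    · intro n hn hn'
      rw [Finset.mem_Ioc] at hn hn'
      have : ¬ Z - (y + h') < n := by omega
      simp only [hg', if_neg this]
      simp
  rw [h3] at h2
  refine le_trans ?_ h2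
  have h4 : ∀ N ∈ Ioc Z (Z + H),
      (∑ n ∈ (Ioc y (y + h')).filter (fun n => n < N), f n * g (N - n)) ^ 2 =
      (∑ n ∈ (Ioc 0 (y + h')).filter (fun n => n < N), f' n * g' (N - n)) ^ 2 := by
    intro N hN
    rw [Finset.mem_Ioc] at hN
    congr 1
    apply Finset.sum_subset_zero_on_sdiff
    · intro n hn
      rw [Finset.mem_filter, Finset.mem_Ioc] at hn ⊢
      omega
    · intro n hn
      rw [Finset.mem_sdiff, Finset.mem_filter, Finset.mem_filter, Finset.mem_Ioc,
        Finset.mem_Ioc] at hn
      have : ¬ y < n := by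
        intro h5
        exact hn.2 ⟨⟨h5, hn.1.1.2⟩, hn.1.2⟩
      simp only [hf', if_neg this]
      simp
    · intro n hn
      rw [Finset.mem_filter, Finset.mem_Ioc] at hn
      have e1 : y < n := hn.1.1
      have e2 : Z - (y + h') < N - n := by omega
      simp only [hf', hg', if_pos e1, if_pos e2]
  rw [Finset.sum_congr rfl h4]
  apply Finset.sum_le_sum_of_subset_of_nonneg
  · intro N hN
    rw [Finset.mem_Ioc] at hN ⊢
    omega
  · intro i _ _
    positivity

theorem ZB_le (X H N : ℕ) (hN : X < N) : ZB X H N < N := by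
  unfold ZB
  have := Nat.mul_div_le (N - X - 1) H
  omega

/-- `yB` is constant on a block -/
theorem yB_block (c : ℝ) (X H N N' : ℕ) (h : (N - X - 1) / H = (N' - X - 1) / H) :
    yB c X H N = yB c X H N' := by
  unfold yB ZB
  rw [h]

theorem hINJ : StInj := by
  classical
  intro c X H h F hc hH hF hy hl
  set s : ℕ → ℕ := fun N => N - (yB c X H N + h) - 1 with hs
  have hmap : ∀ N ∈ Ioc X (2 * X), s N ∈ Icc (X / 2) (2 * X) := by
    intro N hN
    have h1 := hy N hN
    rw [Finset.mem_Ioc] at hN
    rw [Finset.mem_Icc]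
    simp only [hs]
    omega
  -- two numbers with the same value
  have h2 : ∀ N ∈ Ioc X (2 * X), ∀ N' ∈ Ioc X (2 * X), s N = s N' → N < N' →
      N' < N + H ∧ (N - X - 1) / H < (N' - X - 1) / H := by
    intro N hN N' hN' hss hlt
    have a1 := hy N hN
    have a2 := hy N' hN'
    have a3 := hl N hN N' hN' hlt.le
    have hN1 := Finset.mem_Ioc.1 hN
    have hN2 := Finset.mem_Ioc.1 hN'
    simp only [hs] at hss
    have a4 : N' + yB c X H N = N + yB c X H N' := by omega
    have a5 : (N' : ℝ) + yB c X H N = N + yB c X H N' := by exact_mod_cast a4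
    have a6 : (12 : ℝ) ≤ H := by exact_mod_cast hH
    have a7 : (N' : ℝ) < N + H := by linarith
    refine ⟨by exact_mod_cast a7, ?_⟩
    have a8 : (N - X - 1) / H ≤ (N' - X - 1) / H := Nat.div_le_div_right (by omega)
    rcases lt_or_eq_of_le a8 with h9 | h9
    · exact h9
    · have := yB_block c X H N N' h9
      omega
  have hcard : ∀ t ∈ Icc (X / 2) (2 * X), ((Ioc X (2 * X)).filter (fun N => s N = t)).card ≤ 2 := by
    intro t _
    by_contra hcon
    push Not at hcon
    obtain ⟨a, b, d, ha, hb, hd, hab, had, hbd⟩ := Finset.two_lt_card_iff.mp hcon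
    rw [Finset.mem_filter] at ha hb hd
    -- order them
    have key : ∀ a b d : ℕ, a ∈ Ioc X (2 * X) → b ∈ Ioc X (2 * X) → d ∈ Ioc X (2 * X) →
        s a = t → s b = t → s d = t → a < b → b < d → False := by
      intro a b d ha hb hd ea eb ed hab hbd
      obtain ⟨_, g1⟩ := h2 a ha b hb (ea.trans eb.symm) hab
      obtain ⟨_, g2⟩ := h2 b hb d hd (eb.trans ed.symm) hbd
      obtain ⟨g3, _⟩ := h2 a ha d hd (ea.trans ed.symm) (hab.trans hbd)
      have ha1 := Finset.mem_Ioc.1 ha
      have hd1 := Finset.mem_Ioc.1 hd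
      set i := (a - X - 1) / H with hi
      have g4 : i + 2 ≤ (d - X - 1) / H := by omega
      have g5 := (Nat.le_div_iff_mul_le (by omega : 0 < H)).mp g4
      have g6 : a - X - 1 < (i + 1) * H := by
        have h7 := Nat.div_add_mod (a - X - 1) H
        have h8 := Nat.mod_lt (a - X - 1) (by omega : 0 < H)
        rw [← hi] at h7
        nlinarith
      have g7 : (i + 2) * H = (i + 1) * H + H := by ring
      omega
    rcases lt_trichotomy a b with g | g | g
    · rcases lt_trichotomy b d with g' | g' | g'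
      · exact key a b d ha.1 hb.1 hd.1 ha.2 hb.2 hd.2 g g'
      · exact hbd g'
      · rcases lt_trichotomy a d with g'' | g'' | g''
        · exact key a d b ha.1 hd.1 hb.1 ha.2 hd.2 hb.2 g'' g'
        · exact had g''
        · exact key d a b hd.1 ha.1 hb.1 hd.2 ha.2 hb.2 g'' g
    · exact hab g
    · rcases lt_trichotomy a d with g' | g' | g'
      · exact key b a d hb.1 ha.1 hd.1 hb.2 ha.2 hd.2 g g'
      · exact had g'
      · rcases lt_trichotomy b d with g'' | g'' | g''
        · exact key b d a hb.1 hd.1 ha.1 hb.2 hd.2 ha.2 g'' g'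
        · exact hbd g''
        · exact key d b a hd.1 hb.1 ha.1 hd.2 hb.2 ha.2 g'' g
  have e1 : ∑ N ∈ Ioc X (2 * X), F (s N) =
      ∑ t ∈ Icc (X / 2) (2 * X), ∑ N ∈ (Ioc X (2 * X)).filter (fun N => s N = t), F (s N) :=
    (Finset.sum_fiberwise_of_maps_to hmap _).symm
  have e2 : ∑ N ∈ Ioc X (2 * X), F (N - (yB c X H N + h) - 1) = ∑ N ∈ Ioc X (2 * X), F (s N) := rfl
  rw [e2, e1, Finset.mul_sum]
  apply Finset.sum_le_sum
  intro t ht
  have e3 : ∑ N ∈ (Ioc X (2 * X)).filter (fun N => s N = t), F (s N) =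
      ((Ioc X (2 * X)).filter (fun N => s N = t)).card * F t := by
    rw [Finset.sum_congr rfl (g := fun _ => F t), Finset.sum_const, nsmul_eq_mul]
    intro N hN
    rw [(Finset.mem_filter.1 hN).2]
  rw [e3]
  apply mul_le_mul_of_nonneg_right _ (hF t)
  exact_mod_cast hcard t ht

end Pool.Agent.Helper36.SU
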