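import Pool.Agent.Helper58.SU.StQ
import Pool.Agent.Helper23.GK.M_FN3

/-!
# Project SU, modules FU3 and FINU: all scales, final form
-/

set_option autoImplicit false

namespace Pool.Agent.Helper36.SU

open Finset
open Pool.Agent.Helper23.GK
open Pool.Agent.Helper58.SU

open Classical in
theorem ExU_union (c κ : ℝ) (A : ℕ) (s t : Finset ℕ) :
    (ExU c κ A (s ∪ t)).card ≤ (ExU c κ A s).card + (ExU c κ A t).card := by
  unfold ExU
  rw [Finset.filter_union]
  exact Finset.card_union_le _ _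

open Classical in
theorem ExU_mono (c κ : ℝ) (A : ℕ) {s t : Finset ℕ} (h : s ⊆ t) :
    (ExU c κ A s).card ≤ (ExU c κ A t).card := by
  unfold ExU
  exact Finset.card_le_card (Finset.filter_subset_filter _ h)

open Classical in
theorem ExU_card_le (c κ : ℝ) (A : ℕ) (s : Finset ℕ) : (ExU c κ A s).card ≤ s.card := by
  unfold ExU
  exact Finset.card_filter_le _ _

theorem hFU3 (h : StFu2) : StFu3 := by
  intro c κ hc hκ hκ' A
  obtain ⟨X0, hX0⟩ := h c κ hc hκ hκ' A
  obtain ⟨X1, hX1⟩ := FN3_growth A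
  set X2 : ℕ := max (max X1 (2 * X0 + 2)) 4 with hX2
  set C : ℝ := max 7 (Real.log X2 ^ A) with hC
  refine ⟨C, fun X => ?_⟩
  induction X using Nat.strong_induction_on with
  | _ X ih =>
    intro hX
    have hXr : (2 : ℝ) ≤ X := by exact_mod_cast hX
    have hlX : 0 < Real.log X := Real.log_pos (by linarith)
    have hlA : 0 < Real.log X ^ A := by positivity
    have hC7 : 7 ≤ C := le_max_left _ _
    by_cases hbig : X2 ≤ X
    · have h1 : X1 ≤ X := le_trans (le_trans (le_max_left _ _) (le_max_left _ _)) hbig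
      have h2 : 2 * X0 + 2 ≤ X := le_trans (le_trans (le_max_right _ _) (le_max_left _ _)) hbig
      have h3 : 4 ≤ X := le_trans (le_max_right _ _) hbig
      set Y := X / 2 with hY
      have hYX : Y < X := by omega
      have hY2 : 2 ≤ Y := by omega
      have hXY : X ≤ 3 * Y := by omega
      have hYX0 : X0 ≤ Y := by omega
      obtain ⟨g1, g2⟩ := hX1 X h1
      obtain ⟨r1, r2⟩ := FN3_ratio A X Y hX hXY g2
      have e1 := ih Y hYX hY2
      have e2 := hX0 Y hYX0
      have hsub : Icc 1 X ⊆ (Icc 1 Y ∪ Ioc Y (2 * Y)) ∪ {2 * Y + 1} := by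
        intro n hn
        rw [Finset.mem_Icc] at hn
        rw [Finset.mem_union, Finset.mem_union, Finset.mem_Icc, Finset.mem_Ioc,
          Finset.mem_singleton]
        omega
      have e3 : (ExU c κ A (Icc 1 X)).card ≤
          (ExU c κ A (Icc 1 Y)).card + (ExU c κ A (Ioc Y (2 * Y))).card + 1 := by
        refine (ExU_mono c κ A hsub).trans ((ExU_union c κ A _ _).trans ?_)
        refine add_le_add (ExU_union c κ A _ _) ?_
        exact (ExU_card_le c κ A _).trans (by simp)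
      have e4 : ((ExU c κ A (Icc 1 X)).card : ℝ) ≤
          (ExU c κ A (Icc 1 Y)).card + (ExU c κ A (Ioc Y (2 * Y))).card + 1 := by
        exact_mod_cast e3
      have hY0 : (0 : ℝ) ≤ Y := Nat.cast_nonneg Y
      have hlY : 0 < Real.log Y ^ A := by positivity
      have hYX2 : (Y : ℝ) ≤ X / 2 := by
        rw [le_div_iff₀ (by norm_num)]
        have : Y * 2 ≤ X := by omega
        exact_mod_cast this
      have e5 : (Y : ℝ) / Real.log Y ^ A ≤ 3 / 4 * (X / Real.log X ^ A) := by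
        rw [div_le_iff₀ hlY]
        have : 3 / 4 * (X / Real.log X ^ A) * Real.log Y ^ A =
          (X / 2) * (3 / 2 * Real.log Y ^ A / Real.log X ^ A) := by ring
        rw [this]
        have h5 : 1 ≤ 3 / 2 * Real.log Y ^ A / Real.log X ^ A := by
          rw [le_div_iff₀ hlA]; linarith
        nlinarith
      have e6 : 1 ≤ X / Real.log X ^ A := by
        rw [le_div_iff₀ hlA]; linarith
      have e7 : C * Y / Real.log Y ^ A = C * (Y / Real.log Y ^ A) := by ring
      have e8 : C * X / Real.log X ^ A = C * (X / Real.log X ^ A) := by ring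
      rw [e7] at e1
      rw [e8]
      nlinarith
    · push Not at hbig
      have h1 : ((ExU c κ A (Icc 1 X)).card : ℝ) ≤ X := by
        have := ExU_card_le c κ A (Icc 1 X)
        rw [Nat.card_Icc, Nat.add_sub_cancel] at this
        exact_mod_cast this
      refine h1.trans ?_
      rw [le_div_iff₀ hlA]
      have h2 : Real.log X ^ A ≤ C := by
        refine le_trans ?_ (le_max_right _ _)
        exact pow_le_pow_left₀ hlX.le
          (Real.log_le_log (by linarith) (by exact_mod_cast hbig.le)) A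
      nlinarith

/-- a good even number has a representation -/
theorem finu_aux (hs : StSsa) (c κ : ℝ) (hc : 0 < c) (A N : ℕ) (hN : 4 < N)
    (hx : |RU N (c * √(N : ℝ)) (c * √(N : ℝ) + (N : ℝ) ^ κ) - SS N * (N : ℝ) ^ κ| ≤
      (N : ℝ) ^ κ / Real.log N ^ (A + 1)) :
    (∃ p : ℕ, p.Prime ∧ c * √(N : ℝ) < p ∧ (p : ℝ) ≤ c * √(N : ℝ) + (N : ℝ) ^ κ ∧
      (N - p).Prime) ∧
    |RU N (c * √(N : ℝ)) (c * √(N : ℝ) + (N : ℝ) ^ κ) - SS N * (N : ℝ) ^ κ| ≤
      (N : ℝ) ^ κ / Real.log N ^ A := by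
  have hN1 : (4 : ℝ) < N := by exact_mod_cast hN
  have hlog : 1 < Real.log N := by
    rw [Real.lt_log_iff_exp_lt (by linarith)]
    exact lt_trans Real.exp_one_lt_d9 (by linarith)
  have hpos : (0 : ℝ) < (N : ℝ) ^ κ := Real.rpow_pos_of_pos (by linarith) _
  have hpow : (0 : ℝ) < Real.log N ^ A := by positivity
  constructor
  · have hSS := (hs N (by omega)).1
    have h1 : (1 : ℝ) < Real.log N ^ (A + 1) := one_lt_pow₀ hlog (Nat.succ_ne_zero A)
    have h2 : (N : ℝ) ^ κ / Real.log N ^ (A + 1) < (N : ℝ) ^ κ := div_lt_self hpos h1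
    have h3 := (abs_le.mp hx).1
    have h4 : (N : ℝ) ^ κ ≤ SS N * (N : ℝ) ^ κ := by nlinarith
    have h5 : 0 < RU N (c * √(N : ℝ)) (c * √(N : ℝ) + (N : ℝ) ^ κ) := by linarith
    obtain ⟨p, hp, _⟩ : ∃ p ∈ (Ioc ⌊c * √(N : ℝ)⌋₊ ⌊c * √(N : ℝ) + (N : ℝ) ^ κ⌋₊).filter
        (fun p => p.Prime ∧ p < N ∧ (N - p).Prime),
        Real.log p * Real.log ((N - p : ℕ) : ℝ) ≠ 0 := by
      apply Finset.exists_ne_zero_of_sum_ne_zero
      exact h5.ne'
    rw [Finset.mem_filter, Finset.mem_Ioc] at hp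
    obtain ⟨⟨hp1, hp2⟩, hpp, _, hNp⟩ := hp
    refine ⟨p, hpp, ?_, ?_, hNp⟩
    · exact (Nat.floor_lt (by positivity)).mp hp1
    · exact (Nat.le_floor_iff (by positivity)).mp hp2
  · refine hx.trans ?_
    apply div_le_div_of_nonneg_left hpos.le hpow
    exact pow_le_pow_right₀ hlog.le (Nat.le_succ A)

theorem hFINU (h : StFu3) (hs : StSsa) : StFinU := by
  classical
  intro c κ A hc hκ hκ'
  obtain ⟨C, hC⟩ := h c κ hc hκ hκ' (A + 1)
  refine ⟨2 * |C|, fun X hX => ?_⟩
  have hXr : (2 : ℝ) ≤ X := by exact_mod_cast hX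
  have hl2 : 1 / 2 ≤ Real.log 2 := by
    have := Real.log_two_gt_d9
    linarith
  have hlX : 1 / 2 ≤ Real.log X := hl2.trans (Real.log_le_log (by norm_num) hXr)
  have hlA : 0 < Real.log X ^ A := by positivity
  have hlA1 : 0 < Real.log X ^ (A + 1) := by positivity
  have h1 : ({N : ℕ | 4 < N ∧ N ≤ X ∧ Even N ∧
      ¬ ((∃ p : ℕ, p.Prime ∧ c * √(N : ℝ) < p ∧ (p : ℝ) ≤ c * √(N : ℝ) + (N : ℝ) ^ κ ∧
          (N - p).Prime) ∧
        |RU N (c * √(N : ℝ)) (c * √(N : ℝ) + (N : ℝ) ^ κ) - SS N * (N : ℝ) ^ κ| ≤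
          (N : ℝ) ^ κ / Real.log N ^ A)}.ncard : ℝ) ≤ ((ExU c κ (A + 1) (Icc 1 X)).card : ℝ) := by
    rw [← Set.ncard_coe_finset]
    apply Nat.cast_le.mpr
    apply Set.ncard_le_ncard _ (Finset.finite_toSet _)
    rintro N ⟨h1, h2, h3, h4⟩
    rw [Finset.mem_coe]
    unfold ExU
    rw [Finset.mem_filter, Finset.mem_Icc]
    refine ⟨⟨by omega, h2⟩, h3, ?_⟩
    by_contra hx
    push Not at hx
    exact h4 (finu_aux hs c κ hc A N h1 hx)
  refine h1.trans ((hC X hX).trans ?_)
  rw [pow_succ, div_le_div_iff₀ (by positivity) hlA]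
  have h2 : C ≤ |C| := le_abs_self C
  have h3 : 0 ≤ |C| := abs_nonneg C
  have h4 : (0 : ℝ) ≤ X := by linarith
  have h5 : C * X ≤ |C| * X := mul_le_mul_of_nonneg_right h2 h4
  have h6 : |C| * X ≤ 2 * |C| * X * Real.log X := by
    have : 0 ≤ |C| * X := by positivity
    nlinarith
  calc C * X * Real.log X ^ A ≤ (2 * |C| * X * Real.log X) * Real.log X ^ A :=
        mul_le_mul_of_nonneg_right (h5.trans h6) hlA.le
    _ = 2 * |C| * X * (Real.log X ^ A * Real.log X) := by ring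

end Pool.Agent.Helper36.SU
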