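import Pool.Agent.Helper83.SU.St

/-!
# Project SU, module NR
-/

set_option autoImplicit false

open Pool.Agent.Helper83.SU Pool.Agent.Helper83.CK Cardinal Set

namespace Pool.Agent.Helper36.SU

universe u

theorem mk_sub {α : Type u} (L T : Set α) (hT : T ⊆ L) : #({x : L | x.1 ∈ T} : Set L) = #T := by
  have h : ((↑) : L → α) '' {x : L | x.1 ∈ T} = T := by
    ext a
    constructor
    · rintro ⟨x, hx, rfl⟩
      exact hx
    · intro ha
      exact ⟨⟨a, hT ha⟩, ha, rfl⟩
  calc #({x : L | x.1 ∈ T} : Set L) = #(((↑) : L → α) '' {x : L | x.1 ∈ T} : Set α) :=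
        (mk_image_eq Subtype.val_injective).symm
    _ = #T := by rw [h]

/-- Module NR. -/
theorem mNR : StNR.{u} := by
  classical
  intro α k K L hk hKL hK hneg
  rw [negRel_iff] at hneg
  obtain ⟨e⟩ : Nonempty (L ≃ (#L).ord.ToType) := Cardinal.eq.1 (mk_ord_toType _).symm
  have hN : Neg L k.ord.ToType := by
    obtain ⟨f, hf⟩ := hneg
    refine ⟨fun t => f (e '' t), fun X hX => ?_⟩
    rw [eq_univ_iff_forall]
    intro c
    have h1 : #(e '' X : Set _) = #(k.ord.ToType) := by rw [mk_image_eq e.injective, hX]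
    have h2 := hf (e '' X) h1
    have h3 : c ∈ f '' Om (e '' X) := h2 ▸ mem_univ c
    obtain ⟨s, hs, hsc⟩ := h3
    have h4 : e '' (e ⁻¹' s) = s := image_preimage_eq _ e.surjective
    refine ⟨e ⁻¹' s, ⟨?_, ?_⟩, ?_⟩
    · intro a ha
      obtain ⟨b, hb, hbe⟩ := hs.1 ha
      rwa [e.injective hbe] at hb
    · rw [← hs.2]
      conv_rhs => rw [← h4]
      exact (mk_image_eq e.injective).symm
    · show f (e '' (e ⁻¹' s)) = c
      rw [h4, hsc]
  obtain ⟨K', hK'⟩ : ∃ K' : Set L, K' = {x : L | x.1 ∈ K} := ⟨_, rfl⟩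
  have hK1 : #K' = k := by
    rw [hK', mk_sub L K hKL, hK]
  have hnC : ¬ Chang K' := fun h =>
    ((equiv_types L k.ord.ToType (by rw [mk_ord_toType]; exact hk) K'
      (by rw [hK1, mk_ord_toType])).2.1.2 h) hN
  unfold Chang at hnC
  push Not at hnC
  obtain ⟨g', hg'⟩ := hnC
  refine ⟨fun i x => if h : ∀ n, x n ∈ L then (g' i (fun n => ⟨x n, h n⟩)).1 else x 0, ?_⟩
  intro A hA hAK
  obtain ⟨A', hA'⟩ : ∃ A' : Set L, A' = {x : L | x.1 ∈ A} := ⟨_, rfl⟩
  have hcl : Cl g' A' := by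
    intro i x hx
    have h1 : ∀ n, (x n : α) ∈ L := fun n => (x n).2
    have h2 := hA i (fun n => (x n : α)) (fun n => by
      have := hx n
      rw [hA'] at this
      exact this)
    simp only [h1, implies_true, dif_pos] at h2
    rw [hA']
    exact h2
  have h1 : #(A' ∩ K' : Set L) = #(A ∩ K : Set α) := by
    have : (A' ∩ K' : Set L) = {x : L | x.1 ∈ A ∩ K} := by
      rw [hA', hK']
      rfl
    rw [this, mk_sub L (A ∩ K) (inter_subset_right.trans hKL)]
  have h2 : #A' = #(A ∩ L : Set α) := by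
    have : A' = {x : L | x.1 ∈ A ∩ L} := by
      rw [hA']
      ext x
      simp
    rw [this, mk_sub L (A ∩ L) inter_subset_right]
  by_contra hc
  push Not at hc
  have h3 := hg' A' hcl (by rw [h2, hK1]; exact hc)
  rw [h1, hK1] at h3
  exact absurd hAK (not_lt.2 h3)

end Pool.Agent.Helper36.SU
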